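import Mathlib
import Pool.Graph.R_pool_sql_team_seeded_3dad9d7b.NH16.QL.All
import Pool.Graph.R_seed8.W25.QL.Main
import Pool.Graph.R_seed8.W25.QL.Count

/-!
Helper 23.  Bounded sets of multipliers: from the coloured lower bound for multipliers `r ≤ (log x) ^ C`
(`Pool.Agent.NH16.QL.low_holds`) and the combinatorial theorem `Pool.Agent.W25.QL.main_gen`.
-/

set_option autoImplicit false

open Finset Filter Topology

namespace Pool.Agent.H23.BS

open Pool.Agent.NH16.QL Pool.Agent.H387R2 Pool.Agent.H387R2.MB Pool.Agent.H378R2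

/-- the number of `x ≤ q < 2x` with all `q r + 1`, `r ∈ T`, prime -/
def N (x : ℕ) (T : Finset ℕ) : ℕ := ((Ico x (2 * x)).filter (fun q => ∀ r ∈ T, (q * r + 1).Prime)).card

theorem N_anti (x : ℕ) {T T' : Finset ℕ} (h : T' ⊆ T) : N x T ≤ N x T' := by
  unfold N
  apply card_le_card
  intro q hq
  rw [mem_filter] at hq ⊢
  exact ⟨hq.1, fun r hr => hq.2 r (h hr)⟩

theorem WW_le (y : ℕ) : (Uni.WW y : ℝ) ≤ 4 ^ y := by
  have h1 : Uni.WW y ≤ primorial y := by
    unfold Uni.WW primorial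
    apply le_of_eq
    apply prod_congr _ fun _ _ => rfl
    ext p
    simp [Nat.mem_primesBelow]
  have h2 := primorial_le_four_pow y
  exact_mod_cast h1.trans h2

/-- the normalised main quantity is large -/
theorem UM_ge (J : ℕ) : ∀ᶠ x : ℕ in atTop,
    (x : ℝ) / (200 * Real.log x ^ (J + 2)) ≤ UM J (x : ℝ) ⌊Real.log (Real.log ((4 * x : ℕ) : ℝ))⌋₊ := by
  have tN : Tendsto (fun N : ℕ => (N : ℝ)) atTop atTop := tendsto_natCast_atTop_atTop
  have tL : Tendsto (fun N : ℕ => Real.log (N : ℝ)) atTop atTop := Real.tendsto_log_atTop.comp tN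
  filter_upwards [tN.eventually wgt_holds.mge, tL.eventually_ge_atTop 4, eventually_gt_atTop 0]
    with x h1 h2 h3
  have hx0 : (0 : ℝ) < x := by exact_mod_cast h3
  set l := Real.log (x : ℝ) with hl
  have hl0 : 0 < l := by linarith
  have hlog4 : Real.log 4 ≤ 2 := by
    have : Real.log 4 = 2 * Real.log 2 := by
      rw [show (4 : ℝ) = 2 ^ 2 by norm_num, Real.log_pow]; norm_num
    have := Real.log_two_lt_d9
    linarith
  have hlog40 : 0 ≤ Real.log 4 := Real.log_nonneg (by norm_num)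
  have hl4 : Real.log ((4 * x : ℕ) : ℝ) = Real.log 4 + l := by
    push_cast
    rw [Real.log_mul (by norm_num) hx0.ne']
  set L := Real.log ((4 * x : ℕ) : ℝ) with hL
  have hL1 : 4 ≤ L := by rw [hl4]; linarith
  have hL2 : L ≤ 2 * l := by rw [hl4]; linarith
  set y := ⌊Real.log L⌋₊ with hy
  have hlogL : 0 ≤ Real.log L := Real.log_nonneg (by linarith)
  have hyL : (y : ℝ) ≤ Real.log L := Nat.floor_le hlogL
  have hW : (Uni.WW y : ℝ) ≤ L ^ 2 := by
    refine (WW_le y).trans ?_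
    have h5 : (4 : ℝ) ^ y = Real.exp (Real.log 4 * y) := by
      rw [mul_comm, Real.exp_nat_mul, Real.exp_log (by norm_num)]
    rw [h5]
    have h6 : L ^ 2 = Real.exp (2 * Real.log L) := by
      rw [show (2 : ℝ) * Real.log L = (2 : ℕ) * Real.log L by norm_num, Real.exp_nat_mul,
        Real.exp_log (by linarith)]
    rw [h6]
    apply Real.exp_le_exp.2
    calc Real.log 4 * y ≤ 2 * y := mul_le_mul_of_nonneg_right hlog4 (Nat.cast_nonneg _)
      _ ≤ 2 * Real.log L := by linarith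
  have hW0 : (0 : ℝ) < Uni.WW y := by exact_mod_cast Uni.WW_pos y
  have hW4 : (Uni.WW y : ℝ) ≤ 4 * l ^ 2 := by
    refine hW.trans ?_
    nlinarith
  have hr0 := rho_pos y
  have hr1 := rho_le_one y
  have hLL : LL (x : ℝ) = l / 200 := rfl
  have hD : (LL (x : ℝ) * rho y) ^ J ≤ l ^ J := by
    apply pow_le_pow_left₀
    · rw [hLL]; positivity
    · rw [hLL]
      calc l / 200 * rho y ≤ l / 200 * 1 := mul_le_mul_of_nonneg_left hr1 (by positivity)
        _ ≤ l := by linarith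
  have hD0 : 0 < (LL (x : ℝ) * rho y) ^ J := by
    apply pow_pos
    rw [hLL]; positivity
  unfold UM
  have e1 : (x : ℝ) / (200 * l ^ (J + 2)) = ((x : ℝ) / 50 * (1 / (4 * l ^ 2))) * (1 / l ^ J) := by
    rw [pow_add]
    field_simp
    norm_num
  rw [e1]
  apply mul_le_mul
  · apply mul_le_mul h1
    · exact one_div_le_one_div_of_le hW0 hW4
    · positivity
    · exact wgt_holds.mnn _
  · exact one_div_le_one_div_of_le hD0 hD
  · positivity
  · exact mul_nonneg (wgt_holds.mnn _) (by positivity)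

/-- the coloured theorem, counted -/
theorem coloured (m : ℕ) (hm : 1 ≤ m) : ∃ K' B : ℕ, 1 ≤ K' ∧ ∀ C : ℝ, ∀ᶠ x : ℕ in atTop,
    ∀ R : Fin (4 * m) × Fin K' → ℕ, Function.Injective R →
      (∀ z, 1 ≤ R z ∧ (R z : ℝ) ≤ Real.log x ^ C) →
      ∃ (S : Finset (Fin (4 * m))) (σ : Fin (4 * m) → Fin K'), m ≤ S.card ∧
        (x : ℝ) / Real.log x ^ B ≤ N x (S.image (fun g => R (g, σ g))) := by
  classical
  obtain ⟨K', hK', δ, hδ, hδ', c0, hc0, h⟩ := low_holds m hm
  set J := 4 * m * K' with hJ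
  refine ⟨K', J + 3, hK', fun C => ?_⟩
  set M : ℕ := Fintype.card (Finset (Fin (4 * m)) × (Fin (4 * m) → Fin K')) with hM
  have tN : Tendsto (fun N : ℕ => (N : ℝ)) atTop atTop := tendsto_natCast_atTop_atTop
  have tL : Tendsto (fun N : ℕ => Real.log (N : ℝ)) atTop atTop := Real.tendsto_log_atTop.comp tN
  have t4 : Tendsto (fun x : ℕ => 4 * x) atTop atTop :=
    tendsto_id.const_mul_atTop' (by norm_num)
  filter_upwards [t4.eventually (h (max C 0)), UM_ge J, tL.eventually_ge_atTop 1,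
    tL.eventually_gt_atTop (200 * M / c0), eventually_gt_atTop 0] with x h1 h2 h3 h4 h5 R hR hRb
  have hx0 : (0 : ℝ) < x := by exact_mod_cast h5
  have hlogle : Real.log (x : ℝ) ≤ Real.log ((4 * x : ℕ) : ℝ) := by
    apply Real.log_le_log hx0
    push_cast
    linarith
  have hXe : ((4 * x : ℕ) : ℝ) / 4 = x := by push_cast; ring
  have key := h1 0 R hR (fun z => (hRb z).1) (fun z => by
      apply Nat.le_floor
      refine (hRb z).2.trans ?_
      refine (Real.rpow_le_rpow_of_exponent_le h3 (le_max_left C 0)).trans ?_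
      exact Real.rpow_le_rpow (by linarith) hlogle (le_max_right _ _))
    (fun z => by rw [mul_zero, zero_add]; exact Nat.coprime_one_right _)
  rw [hXe] at key
  set l := Real.log (x : ℝ) with hl
  have hl0 : 0 < l := by linarith
  -- the set of the `n` with many hit classes
  set hit : ℕ → Finset (Fin (4 * m)) := fun n => univ.filter (fun g => ∃ j, (R (g, j) * n + 1).Prime) with hhit
  set F : Finset ℕ := (Ico x (2 * x)).filter (fun n => m ≤ (hit n).card) with hF
  have hsum : ∑ n ∈ Icc 1 ⌊3 * (x : ℝ)⌋₊, nw (x : ℝ) (Uni.WW ⌊Real.log (Real.log ((4 * x : ℕ) : ℝ))⌋₊) 0 n *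
      (if (m ≤ ((univ : Finset (Fin (4 * m))).filter (fun g => ∃ j, (R (g, j) * n + 1).Prime)).card) ∧
        (∀ z, Rg δ (x : ℝ) (R z * n + 1)) then 1 else 0) ≤ (F.card : ℝ) := by
    have hterm : ∀ n ∈ Icc 1 ⌊3 * (x : ℝ)⌋₊,
        nw (x : ℝ) (Uni.WW ⌊Real.log (Real.log ((4 * x : ℕ) : ℝ))⌋₊) 0 n *
        (if (m ≤ ((univ : Finset (Fin (4 * m))).filter (fun g => ∃ j, (R (g, j) * n + 1).Prime)).card) ∧
        (∀ z, Rg δ (x : ℝ) (R z * n + 1)) then 1 else 0) ≤ if n ∈ F then (1 : ℝ) else 0 := by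
      intro n _
      by_cases hc : (m ≤ ((univ : Finset (Fin (4 * m))).filter (fun g => ∃ j, (R (g, j) * n + 1).Prime)).card) ∧
        (∀ z, Rg δ (x : ℝ) (R z * n + 1))
      · rw [if_pos hc, mul_one]
        by_cases hn : n ∈ Ico x (2 * x)
        · rw [if_pos (mem_filter.2 ⟨hn, hc.1⟩)]
          unfold nw
          split_ifs
          · have := wgt_holds.half ((n : ℝ) / x)
            linarith
          · norm_num
        · have h0 : Ph (n / (x : ℝ)) = 0 := by
            rw [mem_Ico, not_and_or, not_le, not_lt] at hn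
            rcases hn with hn | hn
            · apply wgt_holds.low _ (by positivity)
              rw [div_le_one hx0]
              exact_mod_cast hn.le
            · apply wgt_holds.high
              have h2 : Real.exp (1 / 2) ≤ 2 := by
                have h3 : Real.exp (1 / 2) ^ 2 = Real.exp 1 := by
                  rw [← Real.exp_nat_mul]
                  norm_num
                have h5 := Real.exp_one_lt_d9
                have h6 := Real.exp_pos (1 / 2 : ℝ)
                nlinarith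
              refine h2.trans ?_
              rw [le_div_iff₀ hx0]
              exact_mod_cast hn
          unfold nw
          rw [h0]
          split_ifs <;> norm_num
      · rw [if_neg hc, mul_zero]
        split_ifs <;> norm_num
    refine (sum_le_sum hterm).trans ?_
    rw [← sum_filter, sum_const, nsmul_eq_mul, mul_one]
    exact_mod_cast card_le_card (fun n hn => (mem_filter.1 hn).2)
  have hFge : c0 * ((x : ℝ) / (200 * l ^ (J + 2))) ≤ (F.card : ℝ) :=
    (mul_le_mul_of_nonneg_left h2 hc0.le).trans (key.trans hsum)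
  by_contra hcon
  push Not at hcon
  set P : Finset (Finset (Fin (4 * m)) × (Fin (4 * m) → Fin K')) := univ.filter (fun p => m ≤ p.1.card) with hP
  have hcov : F ⊆ P.biUnion (fun p => (Ico x (2 * x)).filter
      (fun q => ∀ r ∈ p.1.image (fun g => R (g, p.2 g)), (q * r + 1).Prime)) := by
    intro n hn
    rw [hF, mem_filter] at hn
    have : NeZero K' := ⟨by omega⟩
    rw [mem_biUnion]
    have hch : ∀ g, ∃ j : Fin K', g ∈ hit n → (R (g, j) * n + 1).Prime := by
      intro g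
      by_cases hg : g ∈ hit n
      · rw [hhit, mem_filter] at hg
        obtain ⟨j, hj⟩ := hg.2
        exact ⟨j, fun _ => hj⟩
      · exact ⟨0, fun h => absurd h hg⟩
    choose σ hσ using hch
    refine ⟨(hit n, σ), mem_filter.2 ⟨mem_univ _, hn.2⟩, mem_filter.2 ⟨hn.1, ?_⟩⟩
    intro r hr
    obtain ⟨g, hg, rfl⟩ := mem_image.1 hr
    rw [mul_comm]
    exact hσ g hg
  have hc1 : (F.card : ℝ) ≤ ∑ p ∈ P, (N x (p.1.image (fun g => R (g, p.2 g))) : ℝ) := by
    have := (card_le_card hcov).trans card_biUnion_le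
    exact_mod_cast this
  have hc2 : ∑ p ∈ P, (N x (p.1.image (fun g => R (g, p.2 g))) : ℝ) ≤
      ∑ _p ∈ P, (x : ℝ) / l ^ (J + 3) :=
    sum_le_sum fun p hp => (hcon p.1 p.2 (mem_filter.1 hp).2).le
  have hc3 : ∑ _p ∈ P, (x : ℝ) / l ^ (J + 3) ≤ M * ((x : ℝ) / l ^ (J + 3)) := by
    rw [sum_const, nsmul_eq_mul]
    apply mul_le_mul_of_nonneg_right _ (by positivity)
    exact_mod_cast card_le_univ P
  have hc4 := hFge.trans (hc1.trans (hc2.trans hc3))
  have e2 : (M : ℝ) * ((x : ℝ) / l ^ (J + 3)) = (200 * M / l) * ((x : ℝ) / (200 * l ^ (J + 2))) := by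
    rw [show J + 3 = (J + 2) + 1 by ring, pow_succ]
    field_simp
  rw [e2] at hc4
  have hpos : 0 < (x : ℝ) / (200 * l ^ (J + 2)) := by positivity
  have h6 := le_of_mul_le_mul_right hc4 hpos
  rw [le_div_iff₀ hl0] at h6
  rw [div_lt_iff₀ hc0] at h4
  linarith

/-- a quarter of arbitrary classes, every number of classes -/
theorem quarter (T : ℕ) (hT : 1 ≤ T) : ∃ K B : ℕ, 1 ≤ K ∧ ∀ C : ℝ, ∀ᶠ x : ℕ in atTop,
    ∀ H : Fin T → Fin K → ℕ, Function.Injective (fun z : Fin T × Fin K => H z.1 z.2) →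
      (∀ g i, 1 ≤ H g i ∧ (H g i : ℝ) ≤ Real.log x ^ C) →
      ∃ (S : Finset (Fin T)) (σ : Fin T → Fin K), (T : ℝ) ≤ 4 * (S.card : ℝ) ∧
        (x : ℝ) / Real.log x ^ B ≤ N x (S.image (fun g => H g (σ g))) := by
  classical
  obtain ⟨K', B, hK', h⟩ := coloured T hT
  refine ⟨4 * K', B, by omega, fun C => ?_⟩
  filter_upwards [h C] with x hx H hH hb
  let e : Fin (4 * T) ≃ Fin 4 × Fin T := finProdFinEquiv.symm
  let e' : Fin 4 × Fin K' ≃ Fin (4 * K') := finProdFinEquiv
  obtain ⟨S, σ, hS, hc⟩ := hx (fun z => H (e z.1).2 (e' ((e z.1).1, z.2))) (by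
      rintro ⟨u, s⟩ ⟨u', s'⟩ huv
      have h1 := hH (a₁ := ((e u).2, e' ((e u).1, s))) (a₂ := ((e u').2, e' ((e u').1, s'))) huv
      rw [Prod.mk.injEq] at h1
      have h2 := e'.injective h1.2
      rw [Prod.mk.injEq] at h2
      have h3 : e u = e u' := Prod.ext h2.1 h1.1
      rw [Prod.mk.injEq]
      exact ⟨e.injective h3, h2.2⟩) (fun z => hb _ _)
  set S' : Finset (Fin T) := S.image (fun u => (e u).2) with hS'
  have hcard : S.card ≤ 4 * S'.card := by
    have : S.card ≤ ((univ : Finset (Fin 4)) ×ˢ S').card := by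
      apply card_le_card_of_injOn (fun u => e u)
      · intro u hu
        simp only [coe_product, coe_univ, Set.mem_prod, Set.mem_univ, true_and]
        exact mem_image_of_mem _ hu
      · intro u _ v _ huv
        exact e.injective huv
    rwa [card_product, card_univ, Fintype.card_fin] at this
  have hch : ∀ g, ∃ u : Fin (4 * T), g ∈ S' → u ∈ S ∧ (e u).2 = g := by
    intro g
    by_cases hg : g ∈ S'
    · obtain ⟨u, hu, hug⟩ := mem_image.1 hg
      exact ⟨u, fun _ => ⟨hu, hug⟩⟩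
    · exact ⟨⟨0, by omega⟩, fun h => absurd h hg⟩
  choose u hu using hch
  refine ⟨S', fun g => e' ((e (u g)).1, σ (u g)), ?_, ?_⟩
  · have : T ≤ 4 * S'.card := hS.trans hcard
    exact_mod_cast this
  · refine hc.trans ?_
    have hsub : S'.image (fun g => H g (e' ((e (u g)).1, σ (u g)))) ⊆
        S.image (fun g => H (e g).2 (e' ((e g).1, σ g))) := by
      intro r hr
      obtain ⟨g, hg, rfl⟩ := mem_image.1 hr
      obtain ⟨h1, h2⟩ := hu g hg
      refine mem_image.2 ⟨u g, h1, ?_⟩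
      simp only [h2]
    exact_mod_cast N_anti x hsub

open Pool.Agent.W25.QL in
/-- the ordered form of the theorem -/
theorem ordered (k : ℕ) (ε : ℝ) (hε : 0 < ε) : ∃ n₀ B : ℕ, ∀ C : ℝ, ∀ᶠ x : ℕ in atTop,
    ∀ A : Finset ℕ, (∀ r ∈ A, 1 ≤ r ∧ (r : ℝ) ≤ Real.log x ^ C) → n₀ ≤ A.card →
      ((1 / 4 : ℝ) ^ k - ε) * (A.card : ℝ) ^ (k + 1) ≤
        (((Fintype.piFinset (fun _ : Fin (k + 1) => A)).filter (fun y => Function.Injective y ∧
          (x : ℝ) / Real.log x ^ B ≤ N x (univ.image y))).card : ℝ) := by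
  classical
  have hq : ∀ T : ℕ, ∃ K B : ℕ, 1 ≤ K ∧ (1 ≤ T → ∀ C : ℝ, ∀ᶠ x : ℕ in atTop,
    ∀ H : Fin T → Fin K → ℕ, Function.Injective (fun z : Fin T × Fin K => H z.1 z.2) →
      (∀ g i, 1 ≤ H g i ∧ (H g i : ℝ) ≤ Real.log x ^ C) →
      ∃ (S : Finset (Fin T)) (σ : Fin T → Fin K), (T : ℝ) ≤ 4 * (S.card : ℝ) ∧
        (x : ℝ) / Real.log x ^ B ≤ N x (S.image (fun g => H g (σ g)))) := by
    intro T
    by_cases hT : 1 ≤ T
    · obtain ⟨K, B, hK, h⟩ := quarter T hT
      exact ⟨K, B, hK, fun _ => h⟩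
    · exact ⟨1, 1, le_rfl, fun h => absurd h hT⟩
  choose Kf Bf hKf1 hKf using hq
  obtain ⟨T, M, hT, hM⟩ := main_gen (lam := 4) (by norm_num) k ((1 / 4 : ℝ) ^ k)
    (pow_le_one₀ (by norm_num) (by norm_num)) (fun ε hε => count_pow (by norm_num) k ε hε) ε hε Kf
  obtain ⟨n₀, hn₀⟩ := hM Unit
  set B : ℕ := ∑ T' ∈ range (M + 1), Bf T' with hB
  refine ⟨n₀, B, fun C => ?_⟩
  have hev : ∀ᶠ x : ℕ in atTop, ∀ T' : Fin (M + 1), 1 ≤ (T' : ℕ) →
      ∀ H : Fin (T' : ℕ) → Fin (Kf T') → ℕ, Function.Injective (fun z : Fin (T' : ℕ) × Fin (Kf T') => H z.1 z.2) →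
      (∀ g i, 1 ≤ H g i ∧ (H g i : ℝ) ≤ Real.log x ^ C) →
      ∃ (S : Finset (Fin (T' : ℕ))) (σ : Fin (T' : ℕ) → Fin (Kf T')), ((T' : ℕ) : ℝ) ≤ 4 * (S.card : ℝ) ∧
        (x : ℝ) / Real.log x ^ (Bf T') ≤ N x (S.image (fun g => H g (σ g))) := by
    rw [eventually_all]
    intro T'
    by_cases h0 : 1 ≤ (T' : ℕ)
    swap
    · exact Eventually.of_forall fun x h => absurd h h0
    filter_upwards [hKf T' h0 C] with x hx _ H hH hb
    exact hx H hH hb
  have tN : Tendsto (fun N : ℕ => (N : ℝ)) atTop atTop := tendsto_natCast_atTop_atTop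
  have tL : Tendsto (fun N : ℕ => Real.log (N : ℝ)) atTop atTop := Real.tendsto_log_atTop.comp tN
  filter_upwards [hev, tL.eventually_ge_atTop 1] with x hx hL A hA hAn
  have key := hn₀ ℕ A (fun _ => ()) (fun F => (x : ℝ) / Real.log x ^ B ≤ N x F) hAn
    (fun F F' hF h => h.trans (by exact_mod_cast N_anti x hF)) (by
      intro T' hT'1 hT'M H hHV hHinj _
      obtain ⟨S, cc, hS, hcc⟩ := hx ⟨T', by omega⟩ hT'1 H hHinj (fun g i => hA _ (hHV g i))
      refine ⟨S, cc, hS, le_trans ?_ hcc⟩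
      refine div_le_div_of_nonneg_left (Nat.cast_nonneg _) (by positivity)
        (pow_le_pow_right₀ hL ?_)
      exact single_le_sum (f := Bf) (fun _ _ => Nat.zero_le _) (mem_range.2 (by omega)))
  refine key.trans (le_of_eq ?_)
  congr!

/-- ordered tuples and sets -/
theorem card_ordered_le (k : ℕ) (A : Finset ℕ) (G : Finset ℕ → Prop) [DecidablePred G]
    [DecidablePred (fun y : Fin (k + 1) → ℕ => Function.Injective y ∧ G (univ.image y))] :
    ((Fintype.piFinset (fun _ : Fin (k + 1) => A)).filter (fun y => Function.Injective y ∧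
      G (univ.image y))).card ≤ (k + 1).factorial * ((A.powersetCard (k + 1)).filter G).card := by
  classical
  set Y := (Fintype.piFinset (fun _ : Fin (k + 1) => A)).filter (fun y => Function.Injective y ∧
      G (univ.image y)) with hY
  have hmaps : ∀ y ∈ Y, univ.image y ∈ (A.powersetCard (k + 1)).filter G := by
    intro y hy
    rw [hY, mem_filter, Fintype.mem_piFinset] at hy
    rw [mem_filter, mem_powersetCard]
    refine ⟨⟨?_, ?_⟩, hy.2.2⟩
    · intro r hr
      obtain ⟨i, _, rfl⟩ := mem_image.1 hr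
      exact hy.1 i
    · rw [card_image_of_injective _ hy.2.1, card_univ, Fintype.card_fin]
  apply card_le_mul_card_image_of_maps_to hmaps
  intro T hT
  rw [mem_filter, mem_powersetCard] at hT
  have hTc : T.card = k + 1 := hT.1.2
  -- the fiber
  have h1 : (Y.filter (fun y => univ.image y = T)).card ≤ Fintype.card (Fin (k + 1) ↪ T) := by
    rw [← Fintype.card_coe]
    refine Fintype.card_le_of_injective (fun y => ⟨fun i => ⟨y.1 i, ?_⟩, ?_⟩) ?_
    · have h3 := (mem_filter.1 y.2).2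
      have h4 : y.1 i ∈ univ.image y.1 := mem_image_of_mem _ (mem_univ i)
      have h5 : ∀ U : Finset ℕ, univ.image y.1 = U → y.1 i ∈ U := fun U hU => by
        rw [← hU]; exact h4
      exact h5 T h3
    · intro i j hij
      have h2 := (mem_filter.1 (mem_filter.1 y.2).1).2.1
      exact h2 (by simpa using hij)
    · intro y z hyz
      apply Subtype.ext
      funext i
      exact congrArg (fun f : Fin (k + 1) ↪ T => ((f i : T) : ℕ)) hyz
  refine h1.trans (le_of_eq ?_)
  rw [Fintype.card_embedding_eq, Fintype.card_coe, hTc, Fintype.card_fin, Nat.descFactorial_self]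

open Classical in
/-- **the theorem** -/
theorem main (k : ℕ) (ε : ℝ) (hε : 0 < ε) : ∃ n₀ B : ℕ, ∀ C : ℝ, ∃ x₀ : ℕ, ∀ x : ℕ, x₀ ≤ x →
    ∀ A : Finset ℕ, (∀ r ∈ A, 1 ≤ r ∧ (r : ℝ) ≤ Real.log x ^ C) → n₀ ≤ A.card →
      ((1 / 4 : ℝ) ^ k - ε) * (A.card.choose (k + 1) : ℝ) ≤
        (((A.powersetCard (k + 1)).filter (fun T => (x : ℝ) / Real.log x ^ B ≤ N x T)).card : ℝ) := by
  obtain ⟨n₀, B, h⟩ := ordered k ε hε
  refine ⟨n₀, B, fun C => ?_⟩
  obtain ⟨x₀, hx₀⟩ := eventually_atTop.1 (h C)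
  refine ⟨x₀, fun x hx A hA hAn => ?_⟩
  rcases le_or_gt ((1 / 4 : ℝ) ^ k - ε) 0 with h0 | h0
  · exact (mul_nonpos_of_nonpos_of_nonneg h0 (Nat.cast_nonneg _)).trans (Nat.cast_nonneg _)
  have h1 := hx₀ x hx A hA hAn
  have h2 := card_ordered_le k A (fun T => (x : ℝ) / Real.log x ^ B ≤ N x T)
  have h3 : (((Fintype.piFinset (fun _ : Fin (k + 1) => A)).filter (fun y => Function.Injective y ∧
      (x : ℝ) / Real.log x ^ B ≤ N x (univ.image y))).card : ℝ) ≤
      ((k + 1).factorial : ℝ) * (((A.powersetCard (k + 1)).filter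
        (fun T => (x : ℝ) / Real.log x ^ B ≤ N x T)).card : ℝ) := by
    exact_mod_cast h2
  have h4 : ((k + 1).factorial : ℝ) * (A.card.choose (k + 1) : ℝ) ≤ (A.card : ℝ) ^ (k + 1) := by
    have h5 : (k + 1).factorial * A.card.choose (k + 1) = A.card.descFactorial (k + 1) :=
      (Nat.descFactorial_eq_factorial_mul_choose _ _).symm
    have h6 := Nat.descFactorial_le_pow A.card (k + 1)
    rw [← h5] at h6
    exact_mod_cast h6
  have h7 : ((k + 1).factorial : ℝ) * (((1 / 4 : ℝ) ^ k - ε) * (A.card.choose (k + 1) : ℝ)) ≤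
      ((k + 1).factorial : ℝ) * (((A.powersetCard (k + 1)).filter
        (fun T => (x : ℝ) / Real.log x ^ B ≤ N x T)).card : ℝ) := by
    calc ((k + 1).factorial : ℝ) * (((1 / 4 : ℝ) ^ k - ε) * (A.card.choose (k + 1) : ℝ)) =
        ((1 / 4 : ℝ) ^ k - ε) * (((k + 1).factorial : ℝ) * (A.card.choose (k + 1) : ℝ)) := by ring
      _ ≤ ((1 / 4 : ℝ) ^ k - ε) * (A.card : ℝ) ^ (k + 1) := mul_le_mul_of_nonneg_left h4 h0.le
      _ ≤ _ := h1.trans h3
  exact le_of_mul_le_mul_left h7 (by positivity)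

end Pool.Agent.H23.BS
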